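import Mathlib
import Pool.Agent.Y575.PolMain

/-!
# Adding random reals destroys the polarized relation at the dominating number

In the extension by random reals `r_x`, `x ∈ K`, the colouring `c (x, n) = r_x n` of `K × ω` is not
constant on `A × B` for any uncountable `A` and infinite `B`: the set `B` depends on countably many
of the random reals, and the other random reals are not constant on `B`.
-/

set_option autoImplicit false

namespace Pool.Agent.Results.MP_95a70f_lc.RandomDestroys

open Cardinal Pool.Agent.TH773.PSet Pool.Agent.Y575.Pol

theorem result :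
    (∀ I : Type, dominatingNumber < #I →
      Nonempty (Random I) ∧ ∀ p : Random I,
        p ∈ DominatingIs (Random I) dominatingNumber ∧
        p ∈ fnot (Polarized (Random I) dominatingNumber.out)) ∧
    (∀ I K : Type, ℵ₀ < #K → #K ≤ #I → ∀ p : Random I, p ∈ fnot (Polarized (Random I) K)) ∧
    (∀ (κ : Cardinal.{0}) (p : Unit), p ∈ DominatingIs Unit κ ↔ κ = dominatingNumber) ∧
    (∀ (K : Type) (p : Unit), p ∈ Polarized Unit K ↔ PolarizedRel K) := by
  refine ⟨fun I hI => ⟨⟨⟨Set.univ, MeasurableSet.univ, ?_⟩⟩, fun p => ⟨dominatingIs p, ?_⟩⟩,
    not_polarized, dominatingIs_ground, polarized_ground⟩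
  · rw [MeasureTheory.measure_univ]
    exact one_ne_zero
  · exact not_polarized I _ (by rw [mk_out]; exact aleph0_lt_dominatingNumber)
      (by rw [mk_out]; exact hI.le) p

end Pool.Agent.Results.MP_95a70f_lc.RandomDestroys
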